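import Mathlib

set_option autoImplicit false
set_option linter.unusedSectionVars false

namespace Pool.Agent.Results.MP_827700_an.UpperContinuous

open Filter Topology MeasureTheory Set
open scoped Pointwise

/-- The n-th trajectory C + φ C + ... + φ^(n-1) C. -/
def traj {G : Type*} [AddCommGroup G] (φ : G →+ G) (C : Set G) (n : ℕ) : Set G :=
  ∑ k ∈ Finset.range n, φ^[k] '' C

/-- The entropy of φ with respect to C. -/
noncomputable def HA {G : Type*} [AddCommGroup G] [MeasurableSpace G] (μ : Measure G)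
    (φ : G →+ G) (C : Set G) : EReal :=
  limsup (fun n : ℕ => ((Real.log (μ (traj φ C n)).toReal / n : ℝ) : EReal)) atTop

/-- The algebraic entropy: the supremum over compact neighbourhoods of zero. -/
noncomputable def hA {G : Type*} [AddCommGroup G] [TopologicalSpace G] [MeasurableSpace G]
    (μ : Measure G) (φ : G →+ G) : EReal :=
  ⨆ (C : Set G) (_ : IsCompact C) (_ : C ∈ 𝓝 (0 : G)), HA μ φ C

section Algebra

variable {G H : Type*} [AddCommGroup G] [AddCommGroup H]

theorem traj_zero (φ : G →+ G) (C : Set G) : traj φ C 0 = {0} := rfl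

theorem traj_succ (φ : G →+ G) (C : Set G) (n : ℕ) : traj φ C (n + 1) = C + φ '' traj φ C n := by
  rw [traj, Finset.sum_range_succ', add_comm, traj, image_finsetSum]
  simp only [Function.iterate_zero, image_id, Function.iterate_succ', image_comp]

theorem traj_map (ι : H →+ G) (ψ : H →+ H) (φ : G →+ G) (h : ∀ x, ι (ψ x) = φ (ι x)) (D : Set H)
    (n : ℕ) : ι '' traj ψ D n = traj φ (ι '' D) n := by
  induction n with
  | zero => simp [traj_zero]
  | succ n ih =>
    rw [traj_succ, traj_succ, image_add, ← ih, image_image, image_image]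
    simp only [h]

theorem traj_add (φ : G →+ G) (C D : Set G) (n : ℕ) :
    traj φ (C + D) n = traj φ C n + traj φ D n := by
  induction n with
  | zero => simp [traj_zero]
  | succ n ih => rw [traj_succ, traj_succ, traj_succ, ih, image_add, add_add_add_comm]

theorem zero_mem_traj (φ : G →+ G) {C : Set G} (h : 0 ∈ C) (n : ℕ) : 0 ∈ traj φ C n := by
  induction n with
  | zero => simp [traj_zero]
  | succ n ih => rw [traj_succ]; exact ⟨0, h, 0, ⟨0, ih, map_zero φ⟩, add_zero 0⟩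

theorem subset_traj (φ : G →+ G) {C : Set G} (h : 0 ∈ C) {n : ℕ} (hn : 1 ≤ n) :
    C ⊆ traj φ C n := by
  obtain ⟨n, rfl⟩ := Nat.exists_eq_add_of_le' hn
  rw [traj_succ]
  exact fun x hx => ⟨x, hx, 0, ⟨0, zero_mem_traj φ h n, map_zero φ⟩, add_zero x⟩

theorem traj_subset (φ : G →+ G) {W F : Set G} (h0 : 0 ∈ W) (h : W + φ '' W ⊆ W + F) (n : ℕ) :
    traj φ W n ⊆ W + traj φ F n := by
  induction n with
  | zero => simpa [traj_zero] using h0
  | succ n ih =>
    rw [traj_succ, traj_succ, ← add_assoc]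
    refine (add_subset_add_left (image_mono ih)).trans ?_
    rw [image_add, ← add_assoc]
    exact add_subset_add_right h

end Algebra

theorem limsup_le {a b : ℕ → ENNReal} {c : ENNReal} (hc : c ≠ ⊤)
    (h : ∀ n, 1 ≤ n → a n ≠ 0 ∧ b n ≠ ⊤ ∧ a n ≤ c * b n) :
    limsup (fun n : ℕ => ((Real.log (a n).toReal / n : ℝ) : EReal)) atTop ≤
      limsup (fun n : ℕ => ((Real.log (b n).toReal / n : ℝ) : EReal)) atTop := by
  refine le_of_forall_gt_imp_ge_of_dense fun x hx => ?_
  obtain ⟨y, hy1, hy2⟩ := EReal.lt_iff_exists_real_btwn.1 hx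
  obtain ⟨z, hz1, hz2⟩ := EReal.lt_iff_exists_real_btwn.1 hy1
  refine (limsup_le_of_le (by isBoundedDefault) ?_).trans hy2.le
  have h1 := (tendsto_const_div_atTop_nhds_zero_nat (Real.log c.toReal)).eventually
    (gt_mem_nhds (sub_pos.2 (EReal.coe_lt_coe_iff.1 hz2)))
  filter_upwards [eventually_lt_of_limsup_lt hz1, h1, eventually_ge_atTop 1] with n h2 h3 hn
  obtain ⟨h4, h5, h6⟩ := h n hn
  have h7 : c * b n ≠ ⊤ := ENNReal.mul_ne_top hc h5
  have h8 : 0 < (a n).toReal := ENNReal.toReal_pos h4 (ne_top_of_le_ne_top h7 h6)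
  have h9 := ENNReal.toReal_mono h7 h6
  rw [ENNReal.toReal_mul] at h9
  have h10 := mul_ne_zero_iff.1 (h8.trans_le h9).ne'
  have h11 := Real.log_le_log h8 h9
  rw [Real.log_mul h10.1 h10.2] at h11
  have h12 := div_le_div_of_nonneg_right h11 (Nat.cast_nonneg (α := ℝ) n)
  rw [add_div] at h12
  have h13 := EReal.coe_lt_coe_iff.1 h2
  exact EReal.coe_le_coe_iff.2 (by linarith)

section Top

variable {G : Type*} [AddCommGroup G] [TopologicalSpace G] [IsTopologicalAddGroup G]

theorem traj_compact {φ : G →+ G} (hφ : Continuous φ) {C : Set G} (hC : IsCompact C) (n : ℕ) :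
    IsCompact (traj φ C n) := by
  induction n with
  | zero => exact isCompact_singleton
  | succ n ih => rw [traj_succ]; exact hC.add (ih.image hφ)

variable [MeasurableSpace G] [BorelSpace G] (μ : Measure G) [μ.IsAddHaarMeasure]

theorem cover_le (S : Finset G) (D : Set G) : μ ((S : Set G) + D) ≤ S.card * μ D := by
  rw [← iUnion_add_left_image]
  refine (measure_biUnion_finset_le S _).trans (le_of_eq ?_)
  simp [measure_preimage_add]

theorem packing [T2Space G] {T D : Set G} (hT : IsCompact T) (hD : IsCompact D)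
    (h0 : D ∈ 𝓝 (0 : G)) :
    ∃ S : Finset G, (S : Set G) ⊆ T ∧ T ⊆ S + (D - D) ∧ S.card * μ D ≤ μ (T + D) := by
  classical
  let P : Finset G → Prop := fun S =>
    (S : Set G) ⊆ T ∧ (S : Set G).PairwiseDisjoint fun s => (s + ·) '' D
  have hP : ∀ S, P S → S.card * μ D ≤ μ (T + D) := fun S hS => by
    have h1 := measure_biUnion_finset (μ := μ) hS.2
      fun s _ => (hD.image (continuous_const_add s)).measurableSet
    have h2 : ⋃ s ∈ S, (s + ·) '' D ⊆ T + D := iUnion₂_subset fun s hs => by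
      rintro _ ⟨d, hd, rfl⟩
      exact add_mem_add (hS.1 hs) hd
    refine le_trans (le_of_eq ?_) (h1.ge.trans (measure_mono h2))
    simp [measure_preimage_add]
  have hD0 : μ D ≠ 0 := (Measure.measure_pos_of_mem_nhds μ h0).ne'
  obtain ⟨N, hN⟩ := ENNReal.exists_nat_mul_gt hD0 ((hT.add hD).measure_lt_top (μ := μ)).ne
  have hb : BddAbove (Finset.card '' {S | P S}) := ⟨N, by
    rintro _ ⟨S, hS, rfl⟩
    by_contra hc
    exact ((hP S hS).trans_lt hN).not_ge
      (mul_le_mul_left (Nat.cast_le.2 (not_le.1 hc).le) _)⟩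
  have hne : (Finset.card '' {S | P S}).Nonempty := ⟨_, ∅, ⟨by simp, by simp⟩, rfl⟩
  obtain ⟨S, hS, hm⟩ := Nat.sSup_mem hne hb
  refine ⟨S, hS.1, fun t ht => ?_, hP S hS⟩
  by_contra hc
  have hd : ∀ s ∈ S, Disjoint ((t + ·) '' D) ((s + ·) '' D) := fun s hs => by
    rw [Set.disjoint_left]
    rintro _ ⟨d, hd, rfl⟩ ⟨e, he, h⟩
    refine hc ⟨s, hs, e - d, sub_mem_sub he hd, ?_⟩
    have h' : s + e = t + d := h
    show s + (e - d) = t
    rw [← add_sub_assoc, h', add_sub_cancel_right]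
  have hn : t ∉ S := fun h =>
    Set.disjoint_left.1 (hd t h) ⟨0, mem_of_mem_nhds h0, rfl⟩ ⟨0, mem_of_mem_nhds h0, rfl⟩
  have h1 : P (insert t S) := by
    refine ⟨?_, ?_⟩ <;> rw [Finset.coe_insert]
    · exact insert_subset ht hS.1
    · exact hS.2.insert fun s hs _ => hd s hs
  have h2 := le_csSup hb ⟨_, h1, rfl⟩
  rw [Finset.card_insert_of_notMem hn, ← hm] at h2
  omega

theorem traj_ne_zero (φ : G →+ G) {C : Set G} (h : C ∈ 𝓝 (0 : G)) {n : ℕ} (hn : 1 ≤ n) :
    μ (traj φ C n) ≠ 0 :=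
  ((Measure.measure_pos_of_mem_nhds μ h).trans_le
    (measure_mono (subset_traj φ (mem_of_mem_nhds h) hn))).ne'

theorem combine {a b c d : ENNReal} {k : ℕ} (hd : d ≠ 0) (hd' : d ≠ ⊤) (h1 : a ≤ k * c)
    (h2 : k * d ≤ b) : a ≤ c / d * b := by
  refine h1.trans (le_trans (le_of_eq ?_) (mul_le_mul_right h2 _))
  rw [mul_comm _ d, ← mul_assoc, ENNReal.div_mul_cancel hd hd', mul_comm]

theorem add_nhds {A B : Set G} (hA : 0 ∈ A) (hB : B ∈ 𝓝 (0 : G)) : A + B ∈ 𝓝 (0 : G) :=
  mem_of_superset hB fun x hx => ⟨0, hA, x, hx, zero_add x⟩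

end Top

section Main

variable {G H : Type*} [AddCommGroup G] [TopologicalSpace G] [IsTopologicalAddGroup G]
  [T2Space G] [MeasurableSpace G] [BorelSpace G] (μ : Measure G) [μ.IsAddHaarMeasure]
  [AddCommGroup H] [TopologicalSpace H] [IsTopologicalAddGroup H]
  [T2Space H] [MeasurableSpace H] [BorelSpace H] (ν : Measure H) [ν.IsAddHaarMeasure]
  (ι : H →+ G) (hι : IsClosedEmbedding ι) (ψ : H →+ H) (φ : G →+ G) (hφ : Continuous φ)
  (hψ : Continuous ψ) (h : ∀ x, ι (ψ x) = φ (ι x))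

include hι hφ hψ h

theorem mono [LocallyCompactSpace G] : hA ν ψ ≤ hA μ φ := by
  classical
  refine iSup_le fun D => iSup_le fun hD => iSup_le fun hD0 => ?_
  obtain ⟨W, hW, hW0⟩ := exists_compact_mem_nhds (0 : G)
  have hC := (hD.image hι.continuous).add hW
  refine le_trans ?_ (le_iSup_of_le (ι '' D + W) (le_iSup_of_le hC (le_iSup_of_le
    (add_nhds ⟨0, mem_of_mem_nhds hD0, map_zero ι⟩ hW0) le_rfl)))
  have hW1 : μ W ≠ 0 := (Measure.measure_pos_of_mem_nhds μ hW0).ne'
  have hWW : IsCompact (W - W) := by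
    rw [sub_eq_add_neg]
    exact hW.add hW.neg
  refine limsup_le (c := ν (ι ⁻¹' (W - W)) / μ W)
    (ENNReal.div_ne_top (hι.isCompact_preimage hWW).measure_lt_top.ne hW1) fun n hn =>
    ⟨traj_ne_zero ν ψ hD0 hn, (traj_compact hφ hC n).measure_lt_top.ne, ?_⟩
  obtain ⟨S, hS1, hS2, hS3⟩ := packing μ ((traj_compact hψ hD n).image hι.continuous) hW hW0
  obtain ⟨S', hS'1, rfl⟩ := Finset.subset_set_image_iff.1 hS1
  rw [Finset.card_image_of_injective _ hι.injective] at hS3
  refine combine hW1 hW.measure_lt_top.ne ((measure_mono fun t ht => ?_).trans (cover_le ν S' _))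
    (hS3.trans (measure_mono ?_))
  · obtain ⟨s, hs, w, hw, e⟩ := hS2 ⟨t, ht, rfl⟩
    obtain ⟨s', hs', rfl⟩ := Finset.mem_image.1 (Finset.mem_coe.1 hs)
    refine ⟨s', hs', t - s', ?_, add_sub_cancel _ _⟩
    rwa [mem_preimage, map_sub, ← e, add_sub_cancel_left]
  · rw [traj_add, traj_map ι ψ φ h]
    exact add_subset_add_left (subset_traj φ (mem_of_mem_nhds hW0) hn)

theorem upper [LocallyCompactSpace H] {W F : Set G} (hW : IsCompact W) (hW0 : W ∈ 𝓝 (0 : G))
    (hF : F.Finite) (hF' : F ⊆ range ι) (hWF : W + φ '' W ⊆ W + F) : HA μ φ W ≤ hA ν ψ := by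
  classical
  obtain ⟨D₀, hD₀, hD₀'⟩ := exists_compact_mem_nhds (0 : H)
  have hD : IsCompact (D₀ ∪ ι ⁻¹' F) := hD₀.union (hι.isCompact_preimage hF.isCompact)
  have hD0 : D₀ ∪ ι ⁻¹' F ∈ 𝓝 (0 : H) := mem_of_superset hD₀' subset_union_left
  have hFD : F ⊆ ι '' (D₀ ∪ ι ⁻¹' F) := fun x hx => by
    obtain ⟨y, rfl⟩ := hF' hx
    exact ⟨y, Or.inr hx, rfl⟩
  generalize D₀ ∪ ι ⁻¹' F = D at hD hD0 hFD
  refine le_trans ?_ (le_iSup_of_le (D + D) (le_iSup_of_le (hD.add hD) (le_iSup_of_le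
    (add_nhds (mem_of_mem_nhds hD0) hD0) le_rfl)))
  have hD1 : ν D ≠ 0 := (Measure.measure_pos_of_mem_nhds ν hD0).ne'
  have hDD : IsCompact (D - D) := by
    rw [sub_eq_add_neg]
    exact hD.add hD.neg
  refine limsup_le (c := μ (ι '' (D - D) + W) / ν D)
    (ENNReal.div_ne_top ((hDD.image hι.continuous).add hW).measure_lt_top.ne hD1) fun n hn =>
    ⟨traj_ne_zero μ φ hW0 hn, (traj_compact hψ (hD.add hD) n).measure_lt_top.ne, ?_⟩
  obtain ⟨S, -, hS2, hS3⟩ := packing ν (traj_compact hψ hD n) hD hD0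
  rw [← Finset.card_image_of_injective _ hι.injective] at hS3
  refine combine hD1 hD.measure_lt_top.ne ((measure_mono ?_).trans (cover_le μ _ _))
    (hS3.trans (measure_mono ?_))
  · refine (traj_subset φ (mem_of_mem_nhds hW0) (hWF.trans (add_subset_add_left hFD)) n).trans ?_
    rw [← traj_map ι ψ φ h, add_comm, ← add_assoc, Finset.coe_image, ← image_add]
    exact add_subset_add_right (image_mono hS2)
  · rw [traj_add]
    exact add_subset_add_left (subset_traj ψ (mem_of_mem_nhds hD0) hn)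

end Main

/-- The algebraic entropy of flows of LCA groups is upper continuous. -/
theorem result {G : Type*} [AddCommGroup G] [TopologicalSpace G] [IsTopologicalAddGroup G]
    [LocallyCompactSpace G] [T2Space G] [MeasurableSpace G] [BorelSpace G]
    (μ : Measure G) [μ.IsAddHaarMeasure] (φ : G →+ G) (hφ : Continuous φ)
    {I : Type*} (K : I → AddSubgroup G) (hK : ∀ i, IsClosed (K i : Set G))
    (hinv : ∀ i, ∀ x ∈ K i, φ x ∈ K i) (hdir : Directed (· ≤ ·) K)
    (hcov : ∀ x, ∃ i, x ∈ K i) (ν : ∀ i, Measure (K i)) [∀ i, (ν i).IsAddHaarMeasure] :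
    hA μ φ = ⨆ i, hA (ν i) ((φ.comp (K i).subtype).codRestrict (K i) fun x => hinv i x x.2) := by
  have hc : ∀ i, Continuous ((φ.comp (K i).subtype).codRestrict (K i) fun x => hinv i x x.2) :=
    fun i => (hφ.comp continuous_subtype_val).subtype_mk _
  refine le_antisymm (iSup_le fun W => iSup_le fun hW => iSup_le fun hW0 => ?_) (iSup_le fun i =>
    mono μ (ν i) (K i).subtype (hK i).isClosedEmbedding_subtypeVal _ φ hφ (hc i) fun _ => rfl)
  obtain ⟨F, hF⟩ := compact_covered_by_add_left_translates (hW.add (hW.image hφ))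
    ⟨0, mem_interior_iff_mem_nhds.2 hW0⟩
  have : Nonempty I := ⟨(hcov 0).choose⟩
  obtain ⟨i, hi⟩ : ∃ i, ∀ x ∈ F, x ∈ K i := by
    classical
    choose j hj using hcov
    obtain ⟨i, hi⟩ := hdir.finset_le (F.image j)
    exact ⟨i, fun x hx => hi _ (Finset.mem_image_of_mem j hx) (hj x)⟩
  have : LocallyCompactSpace (K i) := (hK i).isClosedEmbedding_subtypeVal.locallyCompactSpace
  refine le_iSup_of_le i (upper μ (ν i) (K i).subtype (hK i).isClosedEmbedding_subtypeVal _ φ hφ
    (hc i) (fun _ => rfl) hW hW0 (F := -(F : Set G)) F.finite_toSet.neg (fun x hx => ?_)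
    (hF.trans (iUnion₂_subset fun g hg x hx => ?_)))
  · exact ⟨⟨x, neg_mem_iff.1 (hi _ hx)⟩, rfl⟩
  · exact ⟨g + x, hx, -g, by simpa using hg, by simp⟩

end Pool.Agent.Results.MP_827700_an.UpperContinuous
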